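import Pool.Agent.Y947.RL.Stm

/-!
# Job RL FX: stabilisers and sizes (helper26)
-/

set_option autoImplicit false
set_option linter.style.haveILetI false

open Finset Polynomial Module Pool.Agent.H388SL Pool.Agent.Y947.DL Pool.Agent.Y947.RL

namespace Pool.Agent.Y26.RL

section
variable {K : Type} [Field K] [NumberField K]

/-- transport of a pair of embeddings -/
theorem transport (σ τ σ' : K →ₐ[ℚ] ℂ) : ∃ τ' : K →ₐ[ℚ] ℂ, ∀ x y : K, ∀ u : ℕ,
    τ x = (σ y) ^ u → τ' x = (σ' y) ^ u := by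
  have hmem : ∀ (f : K →ₐ[ℚ] ℂ) (x : K), f x ∈ (algebraicClosure ℚ ℂ).toSubalgebra := by
    intro f x
    change f x ∈ algebraicClosure ℚ ℂ
    rw [mem_algebraicClosure_iff]
    exact IsAlgebraic.algHom f (Algebra.IsAlgebraic.isAlgebraic x)
  let σQ : K →ₐ[ℚ] (algebraicClosure ℚ ℂ) := σ.codRestrict _ (hmem σ)
  let τQ : K →ₐ[ℚ] (algebraicClosure ℚ ℂ) := τ.codRestrict _ (hmem τ)
  letI : Algebra K (algebraicClosure ℚ ℂ) := σQ.toRingHom.toAlgebra
  letI : Algebra K ℂ := σ'.toRingHom.toAlgebra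
  haveI : IsScalarTower ℚ K (algebraicClosure ℚ ℂ) := IsScalarTower.of_algebraMap_eq fun q =>
    (σQ.commutes q).symm
  haveI h0 : Algebra.IsAlgebraic ℚ (algebraicClosure ℚ ℂ) := algebraicClosure.isAlgebraic ℚ ℂ
  haveI : Algebra.IsAlgebraic K (algebraicClosure ℚ ℂ) := Algebra.IsAlgebraic.tower_top (K := ℚ) K
  let g : (algebraicClosure ℚ ℂ) →ₐ[K] ℂ := IsAlgClosed.lift
  have hg : ∀ x : K, g (σQ x) = σ' x := fun x => g.commutes x
  refine ⟨(g.toRingHom.comp τQ.toRingHom).toRatAlgHom, fun x y u h => ?_⟩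
  change g (τQ x) = _
  have h1 : τQ x = (σQ y) ^ u := Subtype.ext h
  rw [h1, map_pow, hg]

theorem fix_of_eq {ζ α : K} {u : ℕ} (σ τ : K →ₐ[ℚ] ℂ) (h1 : τ ζ = (σ ζ) ^ u) (h2 : τ α = σ α) :
    Fix ζ α u := by
  intro σ'
  obtain ⟨τ', h⟩ := transport σ τ σ'
  refine ⟨τ', h ζ ζ u h1, ?_⟩
  have := h α α 1 (by rw [pow_one]; exact h2)
  rwa [pow_one] at this

theorem fix_one (ζ α : K) : Fix ζ α 1 := fun σ => ⟨σ, by rw [pow_one], rfl⟩

theorem fix_mul {ζ α : K} {a b : ℕ} (ha : Fix ζ α a) (hb : Fix ζ α b) : Fix ζ α (a * b) := by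
  intro σ
  obtain ⟨τ, h1, h2⟩ := ha σ
  obtain ⟨τ', h3, h4⟩ := hb τ
  exact ⟨τ', by rw [h3, h1, ← pow_mul], by rw [h4, h2]⟩

theorem fix_pow {ζ α : K} {a : ℕ} (ha : Fix ζ α a) (k : ℕ) : Fix ζ α (a ^ k) := by
  induction k with
  | zero => rw [pow_zero]; exact fix_one ζ α
  | succ k ih => rw [pow_succ]; exact fix_mul ih ha

theorem fix_congr {ζ α : K} {m a b : ℕ} (hζ : ζ ^ m = 1) (h : a ≡ b [MOD m]) (ha : Fix ζ α a) :
    Fix ζ α b := by
  intro σ
  obtain ⟨τ, h1, h2⟩ := ha σ
  refine ⟨τ, ?_, h2⟩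
  rw [h1]
  exact pow_eq_pow_of_modEq h (by rw [← map_pow, hζ, map_one])

end

/-- the exponents which are `1` modulo `e` -/
theorem card_one_mod {p e : ℕ} (he : 0 < e) :
    ((range (p * e)).filter fun u => u ≡ 1 [MOD e]).card = p := by
  have h : ((range (p * e)).filter fun u => u ≡ 1 [MOD e]) =
      (range p).image fun j => 1 % e + e * j := by
    ext u
    simp only [mem_filter, mem_range, mem_image]
    constructor
    · rintro ⟨h1, h2⟩
      refine ⟨u / e, Nat.div_lt_of_lt_mul (by rwa [mul_comm]), ?_⟩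
      have h3 : u % e = 1 % e := h2
      rw [← h3]
      exact Nat.mod_add_div u e
    · rintro ⟨j, h1, rfl⟩
      have h3 : 1 % e < e := Nat.mod_lt _ he
      refine ⟨?_, ?_⟩
      · calc 1 % e + e * j < e + e * j := by omega
          _ = e * (j + 1) := by ring
          _ ≤ e * p := Nat.mul_le_mul_left e h1
          _ = p * e := mul_comm _ _
      · unfold Nat.ModEq
        rw [Nat.add_mul_mod_self_left, Nat.mod_mod]
  rw [h, card_image_of_injective, card_range]
  intro a b hab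
  have h1 : e * a = e * b := by
    have : 1 % e + e * a = 1 % e + e * b := hab
    omega
  exact Nat.eq_of_mul_eq_mul_left he h1

theorem card_Gset {m p : ℕ} (hm : 0 < m) (hp : p.Prime) (hpm : p ∣ m) :
    (Gset m p).card = if p ^ 2 ∣ m then p else p - 1 := by
  obtain ⟨e, rfl⟩ := hpm
  have he : 0 < e := Nat.pos_of_ne_zero (by rintro rfl; simp at hm)
  unfold Gset
  rw [Nat.mul_div_cancel_left e hp.pos]
  have hce : ∀ u, u ≡ 1 [MOD e] → u.Coprime e := by
    intro u hu
    have h1 : Nat.gcd u e = Nat.gcd 1 e := hu.gcd_eq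
    rw [Nat.gcd_one_left] at h1
    exact h1
  split_ifs with h2
  · have hpe : p ∣ e := by
      rw [pow_two] at h2
      exact Nat.dvd_of_mul_dvd_mul_left hp.pos h2
    have h3 : ((range (p * e)).filter fun u => u.Coprime (p * e) ∧ u ≡ 1 [MOD e]) =
        (range (p * e)).filter fun u => u ≡ 1 [MOD e] := by
      refine filter_congr fun u _ => ⟨fun h => h.2, fun h => ⟨?_, h⟩⟩
      exact Nat.Coprime.mul_right (Nat.Coprime.coprime_dvd_right hpe (hce u h)) (hce u h)
    rw [h3, card_one_mod he]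
  · have hpe : ¬ p ∣ e := by
      intro h
      apply h2
      rw [pow_two]
      exact Nat.mul_dvd_mul_left p h
    have hco : Nat.Coprime p e := (hp.coprime_iff_not_dvd).2 hpe
    obtain ⟨k, hk1, hk2⟩ := Nat.chineseRemainder hco 0 1
    have h3 : ((range (p * e)).filter fun u => u.Coprime (p * e) ∧ u ≡ 1 [MOD e]) =
        ((range (p * e)).filter fun u => u ≡ 1 [MOD e]).erase (k % (p * e)) := by
      ext u
      simp only [mem_filter, mem_range, mem_erase]
      constructor
      · rintro ⟨h4, h5, h6⟩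
        refine ⟨?_, h4, h6⟩
        rintro rfl
        have h7 : p ∣ k % (p * e) := by
          rw [Nat.dvd_mod_iff (Dvd.intro _ rfl)]
          exact (Nat.modEq_zero_iff_dvd).1 hk1
        have h8 := Nat.Coprime.coprime_dvd_right (Dvd.intro _ rfl : p ∣ p * e) h5
        have h9 := Nat.Coprime.eq_one_of_dvd h8.symm h7
        exact hp.one_lt.ne' h9
      · rintro ⟨h4, h5, h6⟩
        refine ⟨h5, Nat.Coprime.mul_right ?_ (hce u h6), h6⟩
        rw [Nat.coprime_comm, hp.coprime_iff_not_dvd]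
        intro h7
        apply h4
        have h8 : u ≡ k [MOD p] := ((Nat.modEq_zero_iff_dvd).2 h7).trans hk1.symm
        have h9 : u ≡ k [MOD e] := h6.trans hk2.symm
        have h10 : u ≡ k [MOD p * e] := (Nat.modEq_and_modEq_iff_modEq_mul hco).1 ⟨h8, h9⟩
        have h11 : u % (p * e) = k % (p * e) := h10
        rw [← h11, Nat.mod_eq_of_lt h5]
    rw [h3, card_erase_of_mem, card_one_mod he]
    simp only [mem_filter, mem_range]
    refine ⟨Nat.mod_lt _ hm, ?_⟩
    have h4 : k % (p * e) ≡ k [MOD e] := (Nat.mod_modEq k (p * e)).of_mul_left p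
    exact h4.trans hk2

theorem one_mem {K : Type} [Field K] [NumberField K] {m p : ℕ} (hm : 0 < m) (hp : p.Prime)
    (hpm : p ∣ m) (ζ α : K) : 1 ∈ Hset m p ζ α := by
  unfold Hset Gset
  simp only [mem_filter, mem_range]
  have h1 := Nat.le_of_dvd hm hpm
  have h2 := hp.two_le
  exact ⟨⟨by omega, Nat.coprime_one_left m, Nat.ModEq.refl 1⟩, fix_one ζ α⟩

theorem pow_mod {p e j : ℕ} (hpe : p ∣ e) (k : ℕ) :
    (1 + j * e) ^ k ≡ 1 + k * j * e [MOD p * e] := by
  induction k with
  | zero => simp; exact Nat.ModEq.refl 1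
  | succ k ih =>
    rw [pow_succ]
    have h1 : (1 + j * e) ^ k * (1 + j * e) ≡ (1 + k * j * e) * (1 + j * e) [MOD p * e] :=
      ih.mul_right _
    refine h1.trans ?_
    obtain ⟨c, hc⟩ := hpe
    have h2 : (1 + k * j * e) * (1 + j * e) = 1 + (k + 1) * j * e + (p * e) * (k * j * j * c) := by
      have h3 : (1 + k * j * e) * (1 + j * e) = 1 + (k + 1) * j * e + k * j * j * (e * e) := by ring
      rw [h3]
      congr 1
      nth_rewrite 1 [hc]
      ring
    rw [h2]
    have h4 : (p * e) * (k * j * j * c) ≡ 0 [MOD p * e] :=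
      (Nat.modEq_zero_iff_dvd).2 (Dvd.intro _ rfl)
    exact (Nat.ModEq.refl (1 + (k + 1) * j * e)).add h4

theorem fx : S_TR → S_FX := by
  intro _ K _ _ m ζ α hC
  refine ⟨?_, ?_, ?_, ?_⟩
  · intro u _ hu σ τ hτ hst
    unfold cls at hτ
    rw [mem_filter] at hτ
    exact hu (fix_of_eq σ τ hτ.2 hst.symm)
  · intro p hp hpm
    exact card_Gset hC.hm hp hpm
  · intro p hp hpm hp2 hex
    have hH : Hset m p ζ α = {1} := by
      rw [eq_singleton_iff_unique_mem]
      refine ⟨one_mem hC.hm hp hpm ζ α, fun v hv => ?_⟩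
      by_contra hv1
      obtain ⟨u, hu, hnf⟩ := hex
      apply hnf
      obtain ⟨hv2, hvf⟩ : v ∈ Gset m p ∧ Fix ζ α v := by
        unfold Hset at hv
        simp only [mem_filter] at hv
        exact hv
      obtain ⟨e, rfl⟩ := hpm
      have hm := hC.hm
      have he : 0 < e := Nat.pos_of_ne_zero (by rintro rfl; simp at hm)
      have hpe : p ∣ e := by
        rw [pow_two] at hp2
        exact Nat.dvd_of_mul_dvd_mul_left hp.pos hp2
      have he1 : 1 < e := lt_of_lt_of_le hp.one_lt (Nat.le_of_dvd he hpe)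
      have hform : ∀ w ∈ Gset (p * e) p, ∃ j < p, w = 1 + j * e := by
        intro w hw
        unfold Gset at hw
        rw [Nat.mul_div_cancel_left e hp.pos] at hw
        simp only [mem_filter, mem_range] at hw
        obtain ⟨h1, _, h2⟩ := hw
        refine ⟨w / e, Nat.div_lt_of_lt_mul (by rwa [mul_comm]), ?_⟩
        have h3 : w % e = 1 := by
          have : w % e = 1 % e := h2
          rw [this, Nat.mod_eq_of_lt he1]
        have h4 := Nat.mod_add_div w e
        rw [h3] at h4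
        rw [mul_comm]
        exact h4.symm
      obtain ⟨j, hj, rfl⟩ := hform v hv2
      obtain ⟨i, _, rfl⟩ := hform u hu
      have hj0 : 0 < j := Nat.pos_of_ne_zero (by rintro rfl; simp at hv1)
      have hjp : Nat.Coprime j p := by
        rw [Nat.coprime_comm, hp.coprime_iff_not_dvd]
        exact Nat.not_dvd_of_pos_of_lt hj0 hj
      obtain ⟨k0, _, hk0⟩ := Nat.exists_mul_mod_eq_one_of_coprime hjp hp.one_lt
      have hk1 : j * k0 ≡ 1 [MOD p] := by
        unfold Nat.ModEq
        rw [hk0, Nat.mod_eq_of_lt hp.one_lt]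
      have h5 : (k0 * i) * j ≡ i [MOD p] := by
        have := hk1.mul_right i
        rw [one_mul] at this
        have e1 : k0 * i * j = j * k0 * i := by ring
        rw [e1]
        exact this
      have h6 : (k0 * i) * j * e ≡ i * e [MOD p * e] := h5.mul_right' e
      have h7 := pow_mod (j := j) hpe (k0 * i)
      have h8 : (1 + j * e) ^ (k0 * i) ≡ 1 + i * e [MOD p * e] :=
        h7.trans ((Nat.ModEq.refl 1).add h6)
      exact fix_congr (hC.hζ.pow_eq_one) h8 (fix_pow hvf _)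
    rw [hH, card_singleton]
  · intro p hp hpm
    exact card_pos.2 ⟨1, one_mem hC.hm hp hpm ζ α⟩

end Pool.Agent.Y26.RL
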